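import Mathlib
import Pool.Agent.X126.Snow

set_option autoImplicit false

open MeasureTheory

namespace Pool.Agent.Results.MP_ff06a2_an.ConnectedNonunique

/-- Euclidean space of dimension `d`. -/
abbrev E (d : ℕ) : Type := EuclideanSpace ℝ (Fin d)

/-- The constraint of the dual problem: `φ ∈ L¹(ρ)`, `ψ ∈ L¹(μ)` and `φ(x) + ψ(y) ≤ c(x, y)` for all `x, y`. -/
def Admissible {d : ℕ} (ρ μ : Measure (E d)) (c : E d → E d → ℝ) (φ ψ : E d → ℝ) : Prop :=
  Integrable φ ρ ∧ Integrable ψ μ ∧ ∀ x y, φ x + ψ y ≤ c x y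

/-- A maximising pair of the dual problem (a pair of Kantorovich potentials). -/
def Optimal {d : ℕ} (ρ μ : Measure (E d)) (c : E d → E d → ℝ) (φ ψ : E d → ℝ) : Prop :=
  Admissible ρ μ c φ ψ ∧ ∀ φ' ψ' : E d → ℝ, Admissible ρ μ c φ' ψ' →
    (∫ x, φ' x ∂ρ) + ∫ y, ψ' y ∂μ ≤ (∫ x, φ x ∂ρ) + ∫ y, ψ y ∂μ

/-- The standing hypotheses (H): the support of `μ` is bounded, `c` is continuously differentiable, and
`|c(x, y)| ≤ a(x) + b(y)` with `a ∈ L¹(ρ)`, `b ∈ L¹(μ)` real-valued and upper semicontinuous. -/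
def Standing {d : ℕ} (ρ μ : Measure (E d)) (c : E d → E d → ℝ) : Prop :=
  Bornology.IsBounded μ.support ∧ ContDiff ℝ 1 (fun p : E d × E d => c p.1 p.2) ∧
    ∃ a b : E d → ℝ, UpperSemicontinuous a ∧ UpperSemicontinuous b ∧ Integrable a ρ ∧
      Integrable b μ ∧ ∀ x y, |c x y| ≤ a x + b y

/-- The two pairs differ by a constant almost everywhere. -/
def SameUpToConst {d : ℕ} (ρ μ : Measure (E d)) (φ₀ ψ₀ φ₁ ψ₁ : E d → ℝ) : Prop :=
  ∃ l : ℝ, (∀ᵐ x ∂ρ, φ₀ x - φ₁ x = l) ∧ ∀ᵐ y ∂μ, ψ₀ y - ψ₁ y = -l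

/-- There is a Borel probability measure `ρ` on `ℝ¹²` whose support is compact and path connected such
that, for the quadratic cost `c(x, y) = ‖x - y‖²` and the target measure `μ = ρ`, the standing hypotheses (H)
hold but there are two pairs of Kantorovich potentials which do not differ by a constant.
In particular uniqueness up to a constant fails when `spt ρ` is only connected. -/
theorem result :
    ∃ ρ : Measure (E 12), IsProbabilityMeasure ρ ∧ IsCompact ρ.support ∧
      IsPathConnected ρ.support ∧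
      Standing ρ ρ (fun x y => ‖x - y‖ ^ 2) ∧
      ∃ φ₀ ψ₀ φ₁ ψ₁ : E 12 → ℝ,
        Optimal ρ ρ (fun x y => ‖x - y‖ ^ 2) φ₀ ψ₀ ∧
        Optimal ρ ρ (fun x y => ‖x - y‖ ^ 2) φ₁ ψ₁ ∧
        ¬ SameUpToConst ρ ρ φ₀ ψ₀ φ₁ ψ₁ := by
  classical
  set g : unitInterval → E 12 := fun t => Pool.Agent.X126.Snow.g (t : ℝ) with hg
  have hgc : Continuous g := Pool.Agent.X126.Snow.g_cont.comp continuous_subtype_val
  have hsnow : ∀ s t : unitInterval, |(s : ℝ) - t| ≤ 16 * ‖g s - g t‖ ^ 2 :=
    fun s t => Pool.Agent.X126.Snow.snow s t s.2 t.2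
  have hinj : Function.Injective g := by
    intro s t h
    have h1 := hsnow s t
    rw [h, sub_self, norm_zero] at h1
    have h2 : |(s : ℝ) - t| = 0 := le_antisymm (by simpa using h1) (abs_nonneg _)
    exact Subtype.ext (sub_eq_zero.1 (abs_eq_zero.1 h2))
  have hemb : MeasurableEmbedding g := (hgc.isClosedEmbedding hinj).measurableEmbedding
  set ρ : Measure (E 12) := Measure.map g volume with hρ
  have hprob : IsProbabilityMeasure ρ := Measure.isProbabilityMeasure_map hgc.aemeasurable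
  have hcompact : IsCompact (Set.range g) := isCompact_range hgc
  have hopen : ∀ U : Set unitInterval, IsOpen U → U.Nonempty → 0 < (volume : Measure unitInterval) U := by
    intro U hU hne
    obtain ⟨x, hx⟩ := hne
    obtain ⟨V, hV, rfl⟩ := isOpen_induced_iff.1 hU
    rw [unitInterval.volume_apply]
    have h1 : (x : ℝ) ∈ V := hx
    obtain ⟨ε, hε, hb⟩ := Metric.isOpen_iff.1 hV x h1
    -- an interval inside
    rcases lt_or_ge (x : ℝ) 1 with hx1 | hx1
    · have hsub : Set.Ioo (x : ℝ) (min 1 (x + ε)) ⊆ Subtype.val '' (Subtype.val ⁻¹' V : Set unitInterval) := by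
        intro y hy
        have hy1 : y < 1 := hy.2.trans_le (min_le_left _ _)
        have hy2 : y < x + ε := hy.2.trans_le (min_le_right _ _)
        refine ⟨⟨y, x.2.1.trans hy.1.le, hy1.le⟩, hb ?_, rfl⟩
        rw [Metric.mem_ball, Real.dist_eq, abs_of_pos (by linarith [hy.1])]
        linarith
      refine lt_of_lt_of_le ?_ (measure_mono hsub)
      rw [Real.volume_Ioo, ENNReal.ofReal_pos]
      have : (x : ℝ) < min 1 (x + ε) := lt_min hx1 (by linarith)
      linarith
    · have hx1' : (x : ℝ) = 1 := le_antisymm x.2.2 hx1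
      have hsub : Set.Ioo (max 0 (1 - ε)) (1 : ℝ) ⊆ Subtype.val '' (Subtype.val ⁻¹' V : Set unitInterval) := by
        intro y hy
        have hy1 : 0 < y := (le_max_left _ _).trans_lt hy.1
        have hy2 : 1 - ε < y := (le_max_right _ _).trans_lt hy.1
        refine ⟨⟨y, hy1.le, hy.2.le⟩, hb ?_, rfl⟩
        rw [Metric.mem_ball, Real.dist_eq, hx1', abs_sub_comm, abs_of_pos (by linarith [hy.2])]
        linarith
      refine lt_of_lt_of_le ?_ (measure_mono hsub)
      rw [Real.volume_Ioo, ENNReal.ofReal_pos]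
      have : max 0 (1 - ε) < (1 : ℝ) := max_lt zero_lt_one (by linarith)
      linarith
  have hsupp : ρ.support = Set.range g := by
    ext x
    rw [Measure.mem_support_iff_forall]
    constructor
    · intro h
      by_contra hx
      have h1 := h (Set.range g)ᶜ (hcompact.isClosed.isOpen_compl.mem_nhds hx)
      rw [hρ, hemb.map_apply] at h1
      have h2 : g ⁻¹' (Set.range g)ᶜ = ∅ := by
        ext t; simp
      rw [h2] at h1
      simp at h1
    · rintro ⟨t, rfl⟩ U hU
      rw [hρ, hemb.map_apply]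
      obtain ⟨V, hVU, hV, htV⟩ := mem_nhds_iff.1 hU
      exact (hopen _ (hV.preimage hgc) ⟨t, htV⟩).trans_le
        (measure_mono (Set.preimage_mono hVU))
  -- an inverse of the curve
  obtain ⟨T, hT⟩ : ∃ T : E 12 → unitInterval, ∀ t, T (g t) = t :=
    ⟨Function.invFun g, Function.leftInverse_invFun hinj⟩
  set φ₁ : E 12 → ℝ := fun x => if x ∈ Set.range g then (T x : ℝ) / 16 else -1 with hφ
  set ψ₁ : E 12 → ℝ := fun x => if x ∈ Set.range g then -(T x : ℝ) / 16 else -1 with hψ
  have hφg : ∀ t : unitInterval, φ₁ (g t) = (t : ℝ) / 16 := by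
    intro t
    simp only [hφ, Set.mem_range_self, if_true, hT]
  have hψg : ∀ t : unitInterval, ψ₁ (g t) = -(t : ℝ) / 16 := by
    intro t
    simp only [hψ, Set.mem_range_self, if_true, hT]
  have hint : ∀ F : E 12 → ℝ, Continuous (F ∘ g) → Integrable F ρ := by
    intro F hF
    rw [hρ, hemb.integrable_map_iff]
    exact hF.integrable_of_hasCompactSupport (HasCompactSupport.of_compactSpace _)
  have hintφ : Integrable φ₁ ρ := by
    refine hint _ ?_
    have : φ₁ ∘ g = fun t : unitInterval => (t : ℝ) / 16 := funext hφg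
    rw [this]; fun_prop
  have hintψ : Integrable ψ₁ ρ := by
    refine hint _ ?_
    have : ψ₁ ∘ g = fun t : unitInterval => -(t : ℝ) / 16 := funext hψg
    rw [this]; fun_prop
  have hdiag : ∀ φ ψ : E 12 → ℝ, Admissible ρ ρ (fun x y => ‖x - y‖ ^ 2) φ ψ →
      (∫ x, φ x ∂ρ) + ∫ y, ψ y ∂ρ ≤ 0 := by
    rintro φ ψ ⟨h1, h2, h3⟩
    rw [← integral_add h1 h2]
    refine integral_nonpos fun x => ?_
    have := h3 x x
    simpa using this
  refine ⟨ρ, hprob, hsupp ▸ hcompact, ?_, ⟨?_, ?_, ?_⟩, 0, 0, φ₁, ψ₁, ⟨⟨?_, ?_, ?_⟩, ?_⟩,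
    ⟨⟨hintφ, hintψ, ?_⟩, ?_⟩, ?_⟩
  · rw [hsupp]
    have h1 : IsPathConnected (Set.Icc (0:ℝ) 1) :=
      (convex_Icc 0 1).isPathConnected ⟨0, le_rfl, zero_le_one⟩
    have h2 : Set.range g = Pool.Agent.X126.Snow.g '' Set.Icc (0:ℝ) 1 := by
      ext x
      constructor
      · rintro ⟨t, rfl⟩
        exact ⟨t, t.2, rfl⟩
      · rintro ⟨t, ht, rfl⟩
        exact ⟨⟨t, ht⟩, rfl⟩
    rw [h2]
    exact h1.image Pool.Agent.X126.Snow.g_cont
  · rw [hsupp]
    exact hcompact.isBounded
  · exact (contDiff_norm_sq ℝ).comp (contDiff_fst.sub contDiff_snd)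
  · have hc : Continuous fun x : E 12 => 2 * ‖x‖ ^ 2 := by fun_prop
    refine ⟨fun x => 2 * ‖x‖ ^ 2, fun x => 2 * ‖x‖ ^ 2, hc.upperSemicontinuous,
      hc.upperSemicontinuous, hint _ (hc.comp hgc), hint _ (hc.comp hgc), fun x y => ?_⟩
    simp only
    rw [abs_of_nonneg (by positivity)]
    have h1 := norm_sub_le x y
    have h2 : ‖x - y‖ ^ 2 ≤ (‖x‖ + ‖y‖) ^ 2 := pow_le_pow_left₀ (norm_nonneg _) h1 2
    nlinarith [sq_nonneg (‖x‖ - ‖y‖)]
  · exact integrable_zero _ _ _
  · exact integrable_zero _ _ _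
  · intro x y
    simp only [Pi.zero_apply, add_zero]
    positivity
  · intro φ' ψ' h
    have := hdiag φ' ψ' h
    simpa using this
  · intro x y
    have hb : ∀ t : unitInterval, 0 ≤ (t : ℝ) / 16 ∧ (t : ℝ) / 16 ≤ 1 := by
      intro t; constructor <;> linarith [t.2.1, t.2.2]
    by_cases hx : x ∈ Set.range g
    · by_cases hy : y ∈ Set.range g
      · obtain ⟨s, rfl⟩ := hx
        obtain ⟨t, rfl⟩ := hy
        rw [hφg, hψg]
        have h1 := hsnow s t
        have h2 := le_abs_self ((s : ℝ) - t)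
        simp only
        linarith
      · obtain ⟨s, rfl⟩ := hx
        rw [hφg]
        have h1 : ψ₁ y = -1 := by simp only [hψ, hy, if_false]
        rw [h1]
        have := hb s
        have : (0:ℝ) ≤ ‖g s - y‖ ^ 2 := by positivity
        simp only
        linarith
    · have h1 : φ₁ x = -1 := by simp only [hφ, hx, if_false]
      rw [h1]
      have h0 : (0:ℝ) ≤ ‖x - y‖ ^ 2 := by positivity
      by_cases hy : y ∈ Set.range g
      · obtain ⟨t, rfl⟩ := hy
        rw [hψg]
        have := hb t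
        simp only
        linarith
      · have h2 : ψ₁ y = -1 := by simp only [hψ, hy, if_false]
        rw [h2]
        simp only
        linarith
  · intro φ' ψ' h
    refine (hdiag φ' ψ' h).trans ?_
    have h1 : ∫ x, φ₁ x ∂ρ = ∫ t : unitInterval, (t : ℝ) / 16 := by
      rw [hρ, hemb.integral_map]
      exact integral_congr_ae (Filter.Eventually.of_forall hφg)
    have h2 : ∫ x, ψ₁ x ∂ρ = ∫ t : unitInterval, -(t : ℝ) / 16 := by
      rw [hρ, hemb.integral_map]
      exact integral_congr_ae (Filter.Eventually.of_forall hψg)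
    rw [h1, h2]
    have h3 : (fun t : unitInterval => -(t : ℝ) / 16) = fun t : unitInterval => -((t : ℝ) / 16) := by
      funext t; ring
    rw [h3, integral_neg]
    linarith
  · rintro ⟨l, h1, -⟩
    rw [hρ, hemb.ae_map_iff] at h1
    simp only [Pi.zero_apply, hφg] at h1
    have h2 : (volume : Measure unitInterval) {t : unitInterval | (t : ℝ) ≠ -(16 * l)} = 0 := by
      refine measure_mono_null ?_ (ae_iff.1 h1)
      intro t ht hcon
      apply ht
      have : 0 - (t : ℝ) / 16 = l := hcon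
      linarith
    have h3 : IsOpen {t : unitInterval | (t : ℝ) ≠ -(16 * l)} :=
      isOpen_ne_fun continuous_subtype_val continuous_const
    have h4 : {t : unitInterval | (t : ℝ) ≠ -(16 * l)}.Nonempty := by
      by_contra hcon
      rw [Set.not_nonempty_iff_eq_empty, Set.eq_empty_iff_forall_notMem] at hcon
      have h5 := hcon 0
      have h6 := hcon 1
      simp only [Set.mem_ofPred_eq, ne_eq, not_not] at h5 h6
      rw [← h6] at h5
      simp at h5
    exact absurd h2 (hopen _ h3 h4).ne'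

end Pool.Agent.Results.MP_ff06a2_an.ConnectedNonunique
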